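import Pool.Agent.Lib.MP_b1a3a4_al.MVS.HO.Iface

/-!
# Module FPUP (10.11): infinite cyclic extensions of FPres groups
-/

set_option linter.all false

open scoped Pointwise

namespace Pool.Agent.Lib.MP_b1a3a4_al.MVS.HO.H84

section pow

variable {G : Type} [Group G] {B : Set G}

theorem pow_mono_one (h1 : (1 : G) ∈ B) {m n : ℕ} (h : m ≤ n) : B ^ m ⊆ B ^ n :=
  Set.pow_subset_pow_right h1 h

theorem finite_pow (hB : B.Finite) (n : ℕ) : (B ^ n).Finite := by
  induction n with
  | zero => rw [pow_zero]; exact Set.finite_one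
  | succ n ih => rw [pow_succ]; exact ih.mul hB

theorem conn_of_pow {g : G} {n : ℕ} : ∀ {e : G}, e ∈ B ^ n → Conn B Set.univ g (g * e) := by
  induction n with
  | zero =>
    intro e he
    rw [pow_zero, Set.mem_one] at he
    rw [he, mul_one]
    exact Conn.rfl'
  | succ n ih =>
    intro e he
    rw [pow_succ, Set.mem_mul] at he
    obtain ⟨x, hx, b, hb, rfl⟩ := he
    refine Relation.ReflTransGen.tail (ih hx) ⟨Set.mem_univ _, Set.mem_univ _, ?_⟩
    rw [← mul_assoc]
    simpa using hb

theorem pow_of_conn {g h : G} (hc : Conn B Set.univ g h) : ∃ n : ℕ, g⁻¹ * h ∈ B ^ n := by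
  induction hc with
  | refl => exact ⟨0, by simp⟩
  | @tail b c _ hbc ih =>
    obtain ⟨n, hn⟩ := ih
    refine ⟨n + 1, ?_⟩
    rw [pow_succ]
    have : g⁻¹ * c = (g⁻¹ * b) * (b⁻¹ * c) := by group
    rw [this]
    exact Set.mul_mem_mul hn hbc.2.2

end pow

/-- a two-sided sequence with prescribed quotients -/
theorem exists_seq {H : Type} [Group H] (φ : ℤ → H) : ∃ A : ℤ → H, ∀ k, A (k + 1) = A k * φ k := by
  let Ap : ℕ → H := fun n => Nat.rec 1 (fun n a => a * φ n) n
  let Am : ℕ → H := fun n => Nat.rec 1 (fun n a => a * (φ (Int.negSucc n))⁻¹) n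
  refine ⟨fun k => match k with
    | Int.ofNat n => Ap n
    | Int.negSucc n => Am (n + 1), ?_⟩
  intro k
  cases k with
  | ofNat n => rfl
  | negSucc n =>
    cases n with
    | zero =>
      change (1 : H) = (1 * (φ (Int.negSucc 0))⁻¹) * φ (Int.negSucc 0)
      simp
    | succ m =>
      change Am (m + 1) = (Am (m + 1) * (φ (Int.negSucc (m + 1)))⁻¹) * φ (Int.negSucc (m + 1))
      simp

theorem fpup : FpUpStatement := by
  intro S S' _ _ j ψ hj hS
  obtain ⟨⟨E0, hE0, hcc⟩, hcsc⟩ := hS
  obtain ⟨t, ht⟩ := hj.surj (Multiplicative.ofAdd 1)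
  -- conjugation by t
  have hσ : ∀ s : S, ∃ s' : S, j s' = t⁻¹ * j s * t := by
    intro s
    refine (hj.ex _).1 ?_
    have h1 : ψ (j s) = 1 := (hj.ex _).2 ⟨s, rfl⟩
    rw [map_mul, map_mul, map_inv, h1]
    simp
  choose σ hσ using hσ
  have hσm : ∀ s s', σ (s * s') = σ s * σ s' := by
    intro s s'
    apply hj.inj
    rw [map_mul, hσ, hσ, hσ, map_mul]
    group
  -- decomposition
  have htk : ∀ k : ℤ, ψ (t ^ k) = Multiplicative.ofAdd k := by
    intro k
    rw [map_zpow, ht, ← ofAdd_zsmul]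
    simp
  have hdec : ∀ g : S', ∃ (k : ℤ) (s : S), g = t ^ k * j s := by
    intro g
    obtain ⟨s, hs⟩ := (hj.ex ((t ^ (Multiplicative.toAdd (ψ g)))⁻¹ * g)).1 (by
      rw [map_mul, map_inv, htk]
      simp)
    exact ⟨Multiplicative.toAdd (ψ g), s, by rw [hs]; group⟩
  have huniq : ∀ (k k' : ℤ) (s s' : S), t ^ k * j s = t ^ k' * j s' → k = k' ∧ s = s' := by
    intro k k' s s' h
    have h1 : ψ (j s) = 1 := (hj.ex _).2 ⟨s, rfl⟩
    have h2 : ψ (j s') = 1 := (hj.ex _).2 ⟨s', rfl⟩
    have h3 := congrArg ψ h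
    rw [map_mul, map_mul, h1, h2, mul_one, mul_one, htk, htk] at h3
    have h4 : k = k' := Multiplicative.ofAdd.injective h3
    subst h4
    exact ⟨rfl, hj.inj (mul_left_cancel h)⟩
  -- letters
  let X : Set S := E0 ∪ E0⁻¹ ∪ {1}
  have hX : X.Finite := (hE0.union hE0.inv).union (Set.finite_singleton 1)
  let E1 : Set S := X ∪ σ '' X
  have hE1 : E1.Finite := hX.union (hX.image σ)
  let B : Set S' := j '' E1 ∪ {t, t⁻¹, 1}
  have hB : B.Finite := (hE1.image j).union (by simp)
  have hB1 : (1 : S') ∈ B := Or.inr (by simp)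
  have hBt : t ∈ B := Or.inr (by simp)
  have hBt' : t⁻¹ ∈ B := Or.inr (by simp)
  have hBX : ∀ x ∈ E1, j x ∈ B := fun x hx => Or.inl ⟨x, hx, rfl⟩
  -- generation
  have hgen : ∀ g : S', ∃ n : ℕ, g ∈ B ^ n := by
    intro g
    obtain ⟨k, s, rfl⟩ := hdec g
    have h1 : ∃ n : ℕ, t ^ k ∈ B ^ n := by
      cases k with
      | ofNat n => exact ⟨n, by simpa using Set.pow_mem_pow hBt⟩
      | negSucc n =>
        refine ⟨n + 1, ?_⟩
        have : t ^ (Int.negSucc n) = t⁻¹ ^ (n + 1) := by
          rw [zpow_negSucc, inv_pow]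
        rw [this]
        exact Set.pow_mem_pow hBt'
    have h2 : ∃ n : ℕ, j s ∈ B ^ n := by
      obtain ⟨n, hn⟩ := pow_of_conn (hcc 1 (Set.mem_univ _) s (Set.mem_univ _))
      rw [inv_one, one_mul] at hn
      refine ⟨n, ?_⟩
      have h3 : j s ∈ (j '' E0) ^ n := by
        rw [← Set.image_pow]
        exact ⟨s, hn, rfl⟩
      refine Set.pow_subset_pow_left ?_ h3
      rintro _ ⟨x, hx, rfl⟩
      exact hBX x (Or.inl (Or.inl (Or.inl hx)))
    obtain ⟨n, hn⟩ := h1
    obtain ⟨m, hm⟩ := h2
    exact ⟨n + m, by rw [pow_add]; exact Set.mul_mem_mul hn hm⟩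
  refine ⟨⟨B, hB, ?_⟩, ?_⟩
  · intro g _ h _
    obtain ⟨n, hn⟩ := hgen (g⁻¹ * h)
    have := conn_of_pow (g := g) hn
    rwa [mul_inv_cancel_left] at this
  · intro E hE
    -- a ball containing E
    obtain ⟨l, hl⟩ : ∃ l : ℕ, E ⊆ B ^ l := by
      choose n hn using hgen
      refine ⟨hE.toFinset.sup n, fun e he => ?_⟩
      exact pow_mono_one hB1 (Finset.le_sup (f := n) (hE.mem_toFinset.2 he)) (hn e)
    obtain ⟨ES, hES, hcob⟩ := hcsc E1 hE1
    let E' : Set S' := j '' ES ∪ B ^ (l + 2)
    refine ⟨E', (hES.image j).union (finite_pow hB _), ?_⟩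
    intro H _ c hc
    have hBE : ∀ {n : ℕ}, n ≤ l + 2 → B ^ n ⊆ E' := fun hn =>
      (pow_mono_one hB1 hn).trans Set.subset_union_right
    have hcB : ∀ (g h k : S') (n : ℕ), n ≤ l + 2 → g⁻¹ * h ∈ B ^ n → h⁻¹ * k ∈ B ^ n →
        g⁻¹ * k ∈ B ^ n → c g h * c h k = c g k := fun g h k n hn h1 h2 h3 =>
      hc g (Set.mem_univ _) h (Set.mem_univ _) k (Set.mem_univ _) (hBE hn h1) (hBE hn h2)
        (hBE hn h3)
    have hb1 : ∀ {b : S'}, b ∈ B → b ∈ B ^ 2 := fun hb =>
      pow_mono_one hB1 (by norm_num : 1 ≤ 2) (by simpa using hb)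
    have hb2 : ∀ {b b' : S'}, b ∈ B → b' ∈ B → b * b' ∈ B ^ 2 := fun hb hb' => by
      rw [pow_two]
      exact Set.mul_mem_mul hb hb'
    -- potentials on the cosets
    have hf : ∀ k : ℤ, ∃ f : S → H, ∀ s e : S, e ∈ E1 →
        c (t ^ k * j s) (t ^ k * j (s * e)) = (f s)⁻¹ * f (s * e) := by
      intro k
      have h1 : Cocyc ES Set.univ (fun s s' => c (t ^ k * j s) (t ^ k * j s')) := by
        intro a _ b _ d _ h1 h2 h3
        have key : ∀ {x y : S}, x⁻¹ * y ∈ ES → (t ^ k * j x)⁻¹ * (t ^ k * j y) ∈ E' := by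
          intro x y hxy
          refine Or.inl ⟨_, hxy, ?_⟩
          rw [map_mul, map_inv]
          group
        exact hc _ (Set.mem_univ _) _ (Set.mem_univ _) _ (Set.mem_univ _) (key h1) (key h2) (key h3)
      obtain ⟨f, hf⟩ := hcob H _ h1
      exact ⟨f, fun s e he => hf s (Set.mem_univ _) _ (Set.mem_univ _) (by simpa using he)⟩
    choose f hf using hf
    have hshift : ∀ (k : ℤ) (s : S), t ^ k * j s * t = t ^ (k + 1) * j (σ s) := by
      intro k s
      rw [hσ, zpow_add_one]
      group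
    let φ : ℤ → S → H := fun k s =>
      f k s * c (t ^ k * j s) (t ^ k * j s * t) * (f (k + 1) (σ s))⁻¹
    have hφx : ∀ (k : ℤ) (s x : S), x ∈ X → φ k (s * x) = φ k s := by
      intro k s x hx
      have hx1 : x ∈ E1 := Or.inl hx
      have hx2 : σ x ∈ E1 := Or.inr ⟨x, hx, rfl⟩
      have e1 := hf k s x hx1
      have e2 := hf (k + 1) (σ s) (σ x) hx2
      rw [← hσm] at e2
      rw [← hshift, ← hshift] at e2
      have e3 : c (t ^ k * j s) (t ^ k * j (s * x)) * c (t ^ k * j (s * x)) (t ^ k * j (s * x) * t) =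
          c (t ^ k * j s) (t ^ k * j (s * x) * t) := by
        refine hcB _ _ _ 2 (by omega) ?_ ?_ ?_
        · have : (t ^ k * j s)⁻¹ * (t ^ k * j (s * x)) = j x := by rw [map_mul]; group
          rw [this]
          exact hb1 (hBX x hx1)
        · have : (t ^ k * j (s * x))⁻¹ * (t ^ k * j (s * x) * t) = t := by group
          rw [this]
          exact hb1 hBt
        · have : (t ^ k * j s)⁻¹ * (t ^ k * j (s * x) * t) = j x * t := by rw [map_mul]; group
          rw [this]
          exact hb2 (hBX x hx1) hBt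
      have e4 : c (t ^ k * j s) (t ^ k * j s * t) * c (t ^ k * j s * t) (t ^ k * j (s * x) * t) =
          c (t ^ k * j s) (t ^ k * j (s * x) * t) := by
        refine hcB _ _ _ 2 (by omega) ?_ ?_ ?_
        · have : (t ^ k * j s)⁻¹ * (t ^ k * j s * t) = t := by group
          rw [this]
          exact hb1 hBt
        · have : (t ^ k * j s * t)⁻¹ * (t ^ k * j (s * x) * t) = j (σ x) := by
            rw [hσ, map_mul]; group
          rw [this]
          exact hb1 (hBX _ hx2)
        · have : (t ^ k * j s)⁻¹ * (t ^ k * j (s * x) * t) = j x * t := by rw [map_mul]; group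
          rw [this]
          exact hb2 (hBX x hx1) hBt
      change f k (s * x) * c (t ^ k * j (s * x)) (t ^ k * j (s * x) * t) *
          (f (k + 1) (σ (s * x)))⁻¹ = f k s * c (t ^ k * j s) (t ^ k * j s * t) *
          (f (k + 1) (σ s))⁻¹
      have e5 : f k (s * x) = f k s * c (t ^ k * j s) (t ^ k * j (s * x)) := by
        rw [e1]; group
      have e6 : f (k + 1) (σ (s * x)) =
          f (k + 1) (σ s) * c (t ^ k * j s * t) (t ^ k * j (s * x) * t) := by
        rw [e2]; group
      have e7 : c (t ^ k * j s) (t ^ k * j s * t) = c (t ^ k * j s) (t ^ k * j (s * x) * t) *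
          (c (t ^ k * j s * t) (t ^ k * j (s * x) * t))⁻¹ := by
        rw [← e4]; group
      rw [e5, e6, e7, ← e3]
      group
    have hφc : ∀ (k : ℤ) (s : S), φ k s = φ k 1 := by
      intro k s
      have h1 : Conn E0 Set.univ 1 s := hcc 1 (Set.mem_univ _) s (Set.mem_univ _)
      induction h1 with
      | refl => rfl
      | @tail b d _ hbd ih =>
        have h2 := hφx k b (b⁻¹ * d) (Or.inl (Or.inl hbd.2.2))
        rw [mul_inv_cancel_left] at h2
        rw [h2, ih]
    obtain ⟨A, hA⟩ := exists_seq (fun k => φ k 1)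
    choose kk ss hks using hdec
    let F : S' → H := fun g => A (kk g) * f (kk g) (ss g)
    have hF : ∀ (k : ℤ) (s : S), F (t ^ k * j s) = A k * f k s := by
      intro k s
      obtain ⟨h1, h2⟩ := huniq _ _ _ _ (hks (t ^ k * j s))
      change A (kk (t ^ k * j s)) * f (kk (t ^ k * j s)) (ss (t ^ k * j s)) = _
      rw [← h1, ← h2]
    have hone : ∀ g : S', c g g = 1 := by
      intro g
      have := hcB g g g 0 (by omega) (by simp) (by simp) (by simp)
      simpa using this
    have hFt : ∀ g : S', c g (g * t) = (F g)⁻¹ * F (g * t) := by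
      intro g
      obtain ⟨k, s, rfl⟩ : ∃ (k : ℤ) (s : S), g = t ^ k * j s := ⟨_, _, hks g⟩
      rw [hshift, hF, hF, hA, ← hφc k s, ← hshift]
      change _ = (A k * f k s)⁻¹ * (A k * (f k s * c (t ^ k * j s) (t ^ k * j s * t) *
        (f (k + 1) (σ s))⁻¹) * f (k + 1) (σ s))
      group
    have hFB : ∀ (g b : S'), b ∈ B → c g (g * b) = (F g)⁻¹ * F (g * b) := by
      intro g b hb
      rcases hb with ⟨e, he, rfl⟩ | hb
      · obtain ⟨k, s, rfl⟩ : ∃ (k : ℤ) (s : S), g = t ^ k * j s := ⟨_, _, hks g⟩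
        have h1 : t ^ k * j s * j e = t ^ k * j (s * e) := by rw [map_mul, mul_assoc]
        rw [h1, hF, hF, hf k s e he]
        group
      · rcases hb with rfl | rfl | rfl
        · exact hFt g
        · have h1 := hFt (g * t⁻¹)
          rw [inv_mul_cancel_right] at h1
          have h2 := hcB g (g * t⁻¹) g 1 (by omega) (by simpa using hBt') (by simpa using hBt)
            (by simpa using hB1)
          rw [hone] at h2
          have h3 : c g (g * t⁻¹) = (c (g * t⁻¹) g)⁻¹ := eq_inv_of_mul_eq_one_left h2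
          rw [h3, h1]
          group
        · rw [mul_one, hone]
          group
    have hFn : ∀ (n : ℕ), n ≤ l → ∀ (g e : S'), e ∈ B ^ n → c g (g * e) = (F g)⁻¹ * F (g * e) := by
      intro n
      induction n with
      | zero =>
        intro _ g e he
        rw [pow_zero, Set.mem_one] at he
        rw [he, mul_one, hone]
        group
      | succ n ih =>
        intro hn g e he
        rw [pow_succ, Set.mem_mul] at he
        obtain ⟨x, hx, b, hb, rfl⟩ := he
        have h1 := ih (by omega) g x hx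
        have h2 := hFB (g * x) b hb
        have h3 := hcB g (g * x) (g * x * b) (n + 1) (by omega)
          (by
            have : g⁻¹ * (g * x) = x := by group
            rw [this]
            exact pow_mono_one hB1 (Nat.le_succ n) hx)
          (by
            have : (g * x)⁻¹ * (g * x * b) = b := by group
            rw [this]
            exact pow_mono_one hB1 (by omega : 1 ≤ n + 1) (by simpa using hb))
          (by
            have : g⁻¹ * (g * x * b) = x * b := by group
            rw [this, pow_succ]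
            exact Set.mul_mem_mul hx hb)
        rw [← mul_assoc, ← h3, h1, h2]
        group
    refine ⟨F, fun g _ h _ hgh => ?_⟩
    have := hFn l le_rfl g (g⁻¹ * h) (hl hgh)
    rwa [mul_inv_cancel_left] at this

end Pool.Agent.Lib.MP_b1a3a4_al.MVS.HO.H84
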